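import Pool.Agent.D0H92.OP.Scale

set_option autoImplicit false

/-!
# Sparse families have few odd perfect members
-/

namespace Pool.Agent.D0H92.OP

open Finset Filter

/-- the (positive) integer `n` is an odd perfect number -/
def OddPerfect (n : ℤ) : Prop := Odd n.toNat ∧ n.toNat.Perfect

lemma sum_rankin (δ : ℝ) (hδ : 0 < δ) : ∃ C₂ : ℝ, 0 ≤ C₂ ∧ ∀ (R : ℝ) (D : Finset ℕ), 1 ≤ R → (∀ r ∈ D, R ≤ (r : ℝ)) →
    ∑ r ∈ D, (r : ℝ) ^ (-(1 + δ)) ≤ C₂ * R ^ (-(3 * δ / 4)) := by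
  have hs : Summable fun n : ℕ => (n : ℝ) ^ (-(1 + δ / 4)) := Real.summable_nat_rpow.2 (by linarith)
  refine ⟨∑' n : ℕ, (n : ℝ) ^ (-(1 + δ / 4)), tsum_nonneg fun n => by positivity, ?_⟩
  intro R D hR hD
  have hR0 : 0 < R := by linarith
  calc ∑ r ∈ D, (r : ℝ) ^ (-(1 + δ)) ≤ ∑ r ∈ D, (r : ℝ) ^ (-(1 + δ / 4)) * R ^ (-(3 * δ / 4)) := by
        refine sum_le_sum fun r hr => ?_
        have h1 := hD r hr
        have hr0 : (0 : ℝ) < r := by linarith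
        have e1 : (r : ℝ) ^ (-(1 + δ)) = (r : ℝ) ^ (-(1 + δ / 4)) * (r : ℝ) ^ (-(3 * δ / 4)) := by
          rw [← Real.rpow_add hr0]; congr 1; ring
        rw [e1]
        apply mul_le_mul_of_nonneg_left _ (by positivity)
        exact Real.rpow_le_rpow_of_nonpos hR0 h1 (by linarith)
    _ = (∑ r ∈ D, (r : ℝ) ^ (-(1 + δ / 4))) * R ^ (-(3 * δ / 4)) := by rw [sum_mul]
    _ ≤ _ := by
        apply mul_le_mul_of_nonneg_right _ (by positivity)
        exact hs.sum_le_tsum _ fun n _ => by positivity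

open Classical in
theorem criterion (m : ℕ) (c δ C κ : ℝ) (hc : 0 < c) (hc2 : c ≤ 1 / 2) (hδ : 0 < δ) (hδ1 : δ ≤ 1) (hC : 0 ≤ C)
    (hκ : κ = c * δ / (8 * (4 ^ (m + 1) + 1))) :
    ∃ M₀ : ℕ, ∀ (S : Finset ℤ) (P : Finset ℕ), M₀ ≤ S.card → P.card ≤ m →
      (∀ n ∈ S, (n : ℝ) ≤ Real.exp ((S.card : ℝ) ^ κ)) →
      (∀ r : ℕ, 1 ≤ r → (r : ℝ) ≤ (S.card : ℝ) ^ c → (∀ p ∈ P, p.Prime → ¬ p ∣ r) →
        ((S.filter fun n => (r : ℤ) ^ 2 ∣ n).card : ℝ) ≤ C * S.card * (r : ℝ) ^ (-(1 + δ))) →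
      ((S.filter fun n => OddPerfect n).card : ℝ) ≤ (S.card : ℝ) ^ (1 - κ) := by
  obtain ⟨C₂, hC₂, hran⟩ := sum_rankin δ hδ
  obtain ⟨D, hD⟩ : ∃ D : ℕ, D = 2 ^ (2 * m + 2) + 1 := ⟨_, rfl⟩
  have hD1 : 1 ≤ D := by rw [hD]; exact Nat.le_add_left 1 _
  have hD0 : (0 : ℝ) < D := by exact_mod_cast hD1
  have hD1r : (1 : ℝ) ≤ D := by exact_mod_cast hD1
  have hDr : (D : ℝ) = 4 ^ (m + 1) + 1 := by
    rw [hD]
    push_cast
    rw [show 2 * m + 2 = 2 * (m + 1) by ring, pow_mul]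
    norm_num
  obtain ⟨a, ha⟩ : ∃ a : ℝ, a = c / (4 * D) := ⟨_, rfl⟩
  have ha0 : 0 < a := by rw [ha]; positivity
  have haD : 4 * (a * D) = c := by rw [ha]; field_simp
  have ha4 : a ≤ 1 / 4 := by nlinarith
  have hκa' : κ = a * δ / 2 := by rw [hκ, ← hDr, ha]; field_simp; norm_num
  have hκ0 : 0 < κ := by rw [hκa']; positivity
  have hκa : κ ≤ a / 2 := by rw [hκa']; nlinarith
  -- M large
  have e1 : ∀ᶠ M : ℕ in atTop, (4 : ℝ) ^ D ≤ (M : ℝ) ^ (c / 8) :=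
    ((tendsto_rpow_atTop (show 0 < c / 8 by positivity)).comp tendsto_natCast_atTop_atTop).eventually_ge_atTop _
  have e2 : ∀ᶠ M : ℕ in atTop, (2 : ℝ) ≤ (M : ℝ) ^ (1 / 4 : ℝ) :=
    ((tendsto_rpow_atTop (show (0 : ℝ) < 1 / 4 by positivity)).comp tendsto_natCast_atTop_atTop).eventually_ge_atTop _
  have e3 : ∀ᶠ M : ℕ in atTop, 2 * (C * C₂) ≤ (M : ℝ) ^ (a * δ / 4) :=
    ((tendsto_rpow_atTop (show 0 < a * δ / 4 by positivity)).comp tendsto_natCast_atTop_atTop).eventually_ge_atTop _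
  obtain ⟨M₀, hM₀⟩ := eventually_atTop.1 ((e1.and e2).and (e3.and (eventually_ge_atTop 1)))
  refine ⟨M₀, ?_⟩
  intro S P hS hPm hsize hdiv
  obtain ⟨⟨f1, f2⟩, f3, f4⟩ := hM₀ S.card hS
  obtain ⟨M, hM⟩ : ∃ M : ℝ, M = (S.card : ℝ) := ⟨_, rfl⟩
  rw [← hM] at f1 f2 f3 hsize hdiv ⊢
  have hM1 : 1 ≤ M := by rw [hM]; exact_mod_cast f4
  have hM0 : 0 < M := by linarith
  set R : ℝ := M ^ a with hR
  have hR1 : 1 ≤ R := Real.one_le_rpow hM1 ha0.le
  have hexp : ∀ y : ℝ, y ≤ 4 * M ^ (7 / 2 * a) → 0 ≤ y → y ^ D ≤ M ^ c := by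
    intro y hy hy0
    calc y ^ D ≤ (4 * M ^ (7 / 2 * a)) ^ D := pow_le_pow_left₀ hy0 hy _
      _ = 4 ^ D * M ^ (7 * c / 8) := by
          rw [mul_pow, ← Real.rpow_natCast (M ^ (7 / 2 * a)), ← Real.rpow_mul hM0.le]
          congr 2
          linarith
      _ ≤ M ^ (c / 8) * M ^ (7 * c / 8) := mul_le_mul_of_nonneg_right f1 (by positivity)
      _ = M ^ c := by rw [← Real.rpow_add hM0]; congr 1; ring
  -- the alternatives
  have halt : ∀ n ∈ S, OddPerfect n → ((n.toNat : ℝ) ≤ M ^ c) ∨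
      ∃ r : ℕ, 0 < r ∧ (∀ p ∈ P, p.Prime → ¬ p ∣ r) ∧ (r : ℤ) ^ 2 ∣ n ∧ R ≤ r ∧ (r : ℝ) ≤ M ^ c := by
    intro n hn hp
    have hn0 : n.toNat ≠ 0 := hp.2.2.ne'
    have hnn : ((n.toNat : ℕ) : ℤ) = n := Int.toNat_of_nonneg (by omega)
    have hnr : ((n.toNat : ℕ) : ℝ) = (n : ℝ) := by
      have h5 : (((n.toNat : ℕ) : ℤ) : ℝ) = (n : ℝ) := by rw [hnn]
      rwa [Int.cast_natCast] at h5
    have hk : (n.toNat.primeFactors.card : ℝ) ≤ 2 * M ^ κ := by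
      refine (card_le_log hn0).trans ?_
      have h5 : Real.log (n.toNat : ℝ) ≤ M ^ κ := by
        rw [Real.log_le_iff_le_exp (by exact_mod_cast Nat.pos_of_ne_zero hn0), hnr]
        exact hsize n hn
      linarith
    have hX0 : (0 : ℝ) ≤ 2 * n.toNat.primeFactors.card * R ^ 3 := by positivity
    have hX : (2 * n.toNat.primeFactors.card * R ^ 3 : ℝ) ≤ 4 * M ^ (7 / 2 * a) := by
      calc (2 * n.toNat.primeFactors.card * R ^ 3 : ℝ) ≤ 2 * (2 * M ^ κ) * R ^ 3 := by gcongr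
        _ ≤ 4 * M ^ (a / 2) * R ^ 3 := by
            have : M ^ κ ≤ M ^ (a / 2) := Real.rpow_le_rpow_of_exponent_le hM1 hκa
            have h5 : 0 ≤ R ^ 3 := by positivity
            nlinarith
        _ = 4 * M ^ (7 / 2 * a) := by
            rw [hR, ← Real.rpow_natCast (M ^ a), ← Real.rpow_mul hM0.le, mul_assoc, ← Real.rpow_add hM0]
            congr 2
            push_cast
            ring
    have hX1 : (1 : ℝ) ≤ 2 * n.toNat.primeFactors.card * R ^ 3 := by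
      have h6 : n.toNat ≠ 1 := by
        intro h7
        have h8 := (Nat.perfect_iff_sum_divisors_eq_two_mul hp.2.2).1 hp.2
        rw [h7] at h8
        simp at h8
      have h5 : 1 ≤ n.toNat.primeFactors.card := card_pos.2 (Nat.nonempty_primeFactors.2 (by omega))
      have h5' : (1 : ℝ) ≤ n.toNat.primeFactors.card := by exact_mod_cast h5
      have h7 : 1 ≤ R ^ 3 := one_le_pow₀ hR1
      nlinarith
    have hcard : 2 ^ (2 * P.card + 2) + 1 ≤ D := by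
      rw [hD]
      have := Nat.pow_le_pow_right (show 0 < 2 by norm_num) (show 2 * P.card + 2 ≤ 2 * m + 2 by omega)
      omega
    rcases square_scale n.toNat hp.1 hp.2 P R hR1 with h | ⟨r, hr0, hrP, hrn, hRr, hrX⟩
    · left
      exact (h.trans (pow_le_pow_right₀ hX1 (by omega))).trans (hexp _ hX hX0)
    · right
      refine ⟨r, hr0, hrP, ?_, hRr, (hrX.trans (pow_le_pow_right₀ hX1 hcard)).trans (hexp _ hX hX0)⟩
      rw [← hnn]
      exact_mod_cast hrn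
  set DD : Finset ℕ := (Icc 1 ⌊M ^ c⌋₊).filter fun r => R ≤ (r : ℝ) ∧ ∀ p ∈ P, p.Prime → ¬ p ∣ r with hDD
  have hsub : (S.filter fun n => OddPerfect n) ⊆
      (Finset.Icc (0 : ℤ) ⌊M ^ c⌋₊).filter (fun n => 0 < n) ∪ DD.biUnion fun r => S.filter fun n => (r : ℤ) ^ 2 ∣ n := by
    intro n hn
    obtain ⟨hnS, hp⟩ := mem_filter.1 hn
    have hn0 : n.toNat ≠ 0 := hp.2.2.ne'
    rw [mem_union]
    rcases halt n hnS hp with h | ⟨r, hr0, hrP, hrn, hRr, hrM⟩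
    · left
      rw [mem_filter, mem_Icc]
      have h5 : n.toNat ≤ ⌊M ^ c⌋₊ := Nat.le_floor h
      omega
    · right
      rw [mem_biUnion]
      refine ⟨r, ?_, mem_filter.2 ⟨hnS, hrn⟩⟩
      rw [hDD, mem_filter, mem_Icc]
      exact ⟨⟨hr0, Nat.le_floor hrM⟩, hRr, hrP⟩
  have hc1 : (((Finset.Icc (0 : ℤ) ⌊M ^ c⌋₊).filter (fun n => 0 < n)).card : ℝ) ≤ M ^ c := by
    have h5 : (Finset.Icc (0 : ℤ) ⌊M ^ c⌋₊).filter (fun n => 0 < n) = Finset.Ioc (0 : ℤ) ⌊M ^ c⌋₊ := by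
      ext x; simp only [mem_filter, mem_Icc, mem_Ioc]; omega
    rw [h5, Int.card_Ioc]
    simp only [sub_zero, Int.toNat_natCast]
    exact Nat.floor_le (by positivity)
  have hc2 : ((DD.biUnion fun r => S.filter fun n => (r : ℤ) ^ 2 ∣ n).card : ℝ) ≤ C * C₂ * M ^ (1 - 3 * a * δ / 4) := by
    calc ((DD.biUnion fun r => S.filter fun n => (r : ℤ) ^ 2 ∣ n).card : ℝ)
        ≤ ((∑ r ∈ DD, (S.filter fun n => (r : ℤ) ^ 2 ∣ n).card : ℕ) : ℝ) := by exact_mod_cast card_biUnion_le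
      _ = ∑ r ∈ DD, ((S.filter fun n => (r : ℤ) ^ 2 ∣ n).card : ℝ) := by push_cast; rfl
      _ ≤ ∑ r ∈ DD, C * M * (r : ℝ) ^ (-(1 + δ)) := by
          refine sum_le_sum fun r hr => ?_
          rw [hDD, mem_filter, mem_Icc] at hr
          apply hdiv r hr.1.1 _ hr.2.2
          calc (r : ℝ) ≤ ((⌊M ^ c⌋₊ : ℕ) : ℝ) := by exact_mod_cast hr.1.2
            _ ≤ M ^ c := Nat.floor_le (by positivity)
      _ = C * M * ∑ r ∈ DD, (r : ℝ) ^ (-(1 + δ)) := by rw [mul_sum]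
      _ ≤ C * M * (C₂ * R ^ (-(3 * δ / 4))) := by
          apply mul_le_mul_of_nonneg_left _ (by positivity)
          apply hran R DD hR1
          intro r hr
          rw [hDD, mem_filter] at hr
          exact hr.2.1
      _ = C * C₂ * M ^ (1 - 3 * a * δ / 4) := by
          have h5 : R ^ (-(3 * δ / 4)) = M ^ (-(3 * a * δ / 4)) := by
            rw [hR, ← Real.rpow_mul hM0.le]; congr 1; ring
          have h6 : M ^ (1 - 3 * a * δ / 4) = M * M ^ (-(3 * a * δ / 4)) := by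
            rw [show (1 - 3 * a * δ / 4 : ℝ) = 1 + (-(3 * a * δ / 4)) by ring, Real.rpow_add hM0, Real.rpow_one]
          rw [h5, h6]; ring
  have hfin := (Nat.cast_le (α := ℝ)).2 ((card_le_card hsub).trans (card_union_le _ _))
  push_cast at hfin
  have g1 : M ^ c ≤ M ^ (1 - κ) / 2 := by
    have h5 : M ^ c * M ^ (1 / 4 : ℝ) ≤ M ^ (1 - κ) := by
      rw [← Real.rpow_add hM0]
      apply Real.rpow_le_rpow_of_exponent_le hM1
      linarith
    have h6 : 0 < M ^ c := by positivity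
    nlinarith
  have g2 : C * C₂ * M ^ (1 - 3 * a * δ / 4) ≤ M ^ (1 - κ) / 2 := by
    have h5 : M ^ (a * δ / 4) * M ^ (1 - 3 * a * δ / 4) ≤ M ^ (1 - κ) := by
      rw [← Real.rpow_add hM0]
      apply Real.rpow_le_rpow_of_exponent_le hM1
      linarith
    have h6 : 0 < M ^ (1 - 3 * a * δ / 4) := by positivity
    nlinarith
  linarith

end Pool.Agent.D0H92.OP
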