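import Mathlib

set_option autoImplicit false

/-!
# The descent for odd perfect numbers with a set of bad primes

A partition `A ⊔ T ⊔ U` of the primes is changed step by step; the weight of the good primes in `A` and `T` reaches every
scale, since each bad prime is moved at most twice and the total weight is at most squared, roughly, by every move.
-/

namespace Pool.Agent.D0H92.OP

open Finset

section
variable (P : Finset ℕ) (e : ℕ → ℕ)

/-- weight of a good prime in `A` -/
noncomputable def fA (p : ℕ) : ℝ := if p ∉ P then (p : ℝ) ^ (e p + 1) else 1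
/-- weight of a bad prime in `A` -/
noncomputable def gA (p : ℕ) : ℝ := if p ∉ P then 1 else (p : ℝ) ^ (e p + 1)
/-- weight of a good prime in `T` -/
noncomputable def fT (p : ℕ) : ℝ := if p ∉ P then (p : ℝ) else 1
/-- weight of a bad prime in `T` -/
noncomputable def gT (p : ℕ) : ℝ := if p ∉ P then 1 else (p : ℝ)

lemma fgA (p : ℕ) : fA P e p * gA P e p = (p : ℝ) ^ (e p + 1) := by
  unfold fA gA; split_ifs <;> simp

lemma fgT (p : ℕ) : fT P p * gT P p = (p : ℝ) := by
  unfold fT gT; split_ifs <;> simp

lemma one_le_fA {p : ℕ} (hp : 1 ≤ p) : 1 ≤ fA P e p := by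
  have : (1 : ℝ) ≤ p := by exact_mod_cast hp
  unfold fA; split_ifs <;> first | exact one_le_pow₀ this | exact le_rfl

lemma one_le_gA {p : ℕ} (hp : 1 ≤ p) : 1 ≤ gA P e p := by
  have : (1 : ℝ) ≤ p := by exact_mod_cast hp
  unfold gA; split_ifs <;> first | exact one_le_pow₀ this | exact le_rfl

lemma one_le_fT {p : ℕ} (hp : 1 ≤ p) : 1 ≤ fT P p := by
  have : (1 : ℝ) ≤ p := by exact_mod_cast hp
  unfold fT; split_ifs <;> first | exact this | exact le_rfl

lemma one_le_gT {p : ℕ} (hp : 1 ≤ p) : 1 ≤ gT P p := by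
  have : (1 : ℝ) ≤ p := by exact_mod_cast hp
  unfold gT; split_ifs <;> first | exact this | exact le_rfl

lemma one_le_prodR (S : Finset ℕ) (f : ℕ → ℝ) (h : ∀ p ∈ S, 1 ≤ f p) : 1 ≤ ∏ p ∈ S, f p := by
  classical
  induction S using Finset.induction_on with
  | empty => simp
  | insert a S ha ih =>
    rw [prod_insert ha]
    have h1 := h a (mem_insert_self _ _)
    have h2 := ih fun p hp => h p (mem_insert_of_mem hp)
    nlinarith

lemma bad_ineq {X k R F G y : ℝ} {j : ℕ} (hX : X = 2 * k * R) (hX1 : 1 ≤ X) (hk : 0 ≤ k) (hF : F ≤ R)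
    (hG1 : 0 ≤ G) (hG : G ≤ X ^ (2 ^ j - 1)) (hy : y ≤ 2 * k * (F * G)) : G * y ≤ X ^ (2 ^ (j + 1) - 1) := by
  have e1 : 2 ^ (j + 1) - 1 = (2 ^ j - 1) + (2 ^ j - 1) + 1 := by
    have : 1 ≤ 2 ^ j := Nat.one_le_two_pow
    rw [pow_succ]; omega
  rw [e1, pow_succ, pow_add]
  have h1 : y ≤ X * G := by
    calc y ≤ 2 * k * (F * G) := hy
      _ ≤ 2 * k * (R * G) := by gcongr
      _ = X * G := by rw [hX]; ring
  calc G * y ≤ G * (X * G) := mul_le_mul_of_nonneg_left h1 hG1
    _ = G * G * X := by ring
    _ ≤ X ^ (2 ^ j - 1) * X ^ (2 ^ j - 1) * X := by gcongr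

lemma free_ineq {X k R F G y : ℝ} {j m : ℕ} (hX : X = 2 * k * R) (hR : 0 ≤ R) (hRX : R ≤ X) (hX1 : 1 ≤ X) (hk : 0 ≤ k)
    (hF0 : 0 ≤ F) (hF : F ≤ R) (hG1 : 0 ≤ G) (hG : G ≤ X ^ (2 ^ j - 1)) (hy : y ≤ 2 * k * (F * G)) (hjm : j ≤ m) :
    F * y ≤ X ^ (2 ^ m + 1) := by
  have h1 : y ≤ X * G := by
    calc y ≤ 2 * k * (F * G) := hy
      _ ≤ 2 * k * (R * G) := by gcongr
      _ = X * G := by rw [hX]; ring
  have h0 : 0 ≤ X := by linarith
  have e1 : 2 ^ j + 1 = (2 ^ j - 1) + 1 + 1 := by
    have : 1 ≤ 2 ^ j := Nat.one_le_two_pow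
    omega
  calc F * y ≤ F * (X * G) := mul_le_mul_of_nonneg_left h1 hF0
    _ ≤ X * (X * X ^ (2 ^ j - 1)) := by
        have : F ≤ X := hF.trans hRX
        gcongr
    _ = X ^ (2 ^ j + 1) := by rw [e1]; ring
    _ ≤ X ^ (2 ^ m + 1) := by
        apply pow_le_pow_right₀ hX1
        have := Nat.pow_le_pow_right (show 0 < 2 by norm_num) hjm
        omega

end

/-- the weight of the good primes -/
noncomputable def Fw (P : Finset ℕ) (e : ℕ → ℕ) (A T : Finset ℕ) : ℝ := (∏ i ∈ A, fA P e i) * ∏ i ∈ T, fT P i

/-- the weight of the bad primes -/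
noncomputable def Gw (P : Finset ℕ) (e : ℕ → ℕ) (A T : Finset ℕ) : ℝ := (∏ i ∈ A, gA P e i) * ∏ i ∈ T, gT P i

/-- the number of the moves of bad primes -/
def jj (P A T : Finset ℕ) : ℕ := 2 * (A.filter (· ∈ P)).card + (T.filter (· ∈ P)).card

lemma FG (P : Finset ℕ) (e : ℕ → ℕ) (A T : Finset ℕ) :
    (∏ i ∈ A, (i : ℝ) ^ (e i + 1)) * ∏ i ∈ T, (i : ℝ) = Fw P e A T * Gw P e A T := by
  unfold Fw Gw
  rw [mul_mul_mul_comm, ← prod_mul_distrib, ← prod_mul_distrib]
  congr 1
  · exact prod_congr rfl fun p _ => (fgA P e p).symm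
  · exact prod_congr rfl fun p _ => (fgT P p).symm

lemma jj_le {P A T : Finset ℕ} (hAT : Disjoint A T) : jj P A T ≤ 2 * P.card := by
  unfold jj
  have h1 : (A.filter (· ∈ P)).card + (T.filter (· ∈ P)).card ≤ P.card := by
    rw [← card_union_of_disjoint (disjoint_filter_filter hAT)]
    apply card_le_card
    intro p hp
    rw [mem_union, mem_filter, mem_filter] at hp
    exact hp.elim (·.2) (·.2)
  omega

theorem descent (I : Finset ℕ) (e : ℕ → ℕ) (P : Finset ℕ) (k R X : ℝ) (hR : 1 ≤ R) (hk : 1 ≤ k) (hX : X = 2 * k * R)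
    (h1 : ∀ p ∈ I, 1 ≤ p)
    (hstep : ∀ A T U : Finset ℕ, A ∪ T ∪ U = I → Disjoint A T → Disjoint A U → Disjoint T U → (T ∪ U).Nonempty →
      (∃ p ∈ U, (p : ℝ) ≤ 2 * k * ((∏ i ∈ A, (i : ℝ) ^ (e i + 1)) * ∏ i ∈ T, (i : ℝ))) ∨
      (∃ p ∈ T ∪ U, (p : ℝ) ^ (e p + 1) ≤ 2 * k * ((∏ i ∈ A, (i : ℝ) ^ (e i + 1)) * ∏ i ∈ T, (i : ℝ)))) :
    ∀ (n : ℕ) (A T U : Finset ℕ), A ∪ T ∪ U = I → Disjoint A T → Disjoint A U → Disjoint T U → T.card + 2 * U.card = n →
      Fw P e A T < R → Gw P e A T ≤ X ^ (2 ^ (jj P A T) - 1) →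
      (∏ i ∈ I, (i : ℝ) ^ (e i + 1) ≤ X ^ (2 ^ (2 * P.card))) ∨
      ∃ A' T' : Finset ℕ, A' ⊆ I ∧ T' ⊆ I ∧ Disjoint A' T' ∧ R ≤ Fw P e A' T' ∧
        Fw P e A' T' ≤ X ^ (2 ^ (2 * P.card) + 1) := by
  intro n
  induction n using Nat.strong_induction_on with
  | _ n ih =>
  intro A T U hI hAT hAU hTU hn hF hG
  have hX1 : 1 ≤ X := by rw [hX]; nlinarith
  have hRX : R ≤ X := by rw [hX]; nlinarith
  have hX0 : 0 ≤ X := by linarith
  have hk0 : 0 ≤ k := by linarith
  have memI : ∀ p, p ∈ I ↔ p ∈ A ∨ p ∈ T ∨ p ∈ U := by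
    intro p; rw [← hI]; simp [or_assoc]
  have hA1 : ∀ p ∈ A, 1 ≤ p := fun p hp => h1 p ((memI p).2 (Or.inl hp))
  have hT1 : ∀ p ∈ T, 1 ≤ p := fun p hp => h1 p ((memI p).2 (Or.inr (Or.inl hp)))
  have hfA1 : 1 ≤ ∏ i ∈ A, fA P e i := one_le_prodR _ _ fun p hp => one_le_fA P e (hA1 p hp)
  have hfT1 : 1 ≤ ∏ i ∈ T, fT P i := one_le_prodR _ _ fun p hp => one_le_fT P (hT1 p hp)
  have hgA1 : 1 ≤ ∏ i ∈ A, gA P e i := one_le_prodR _ _ fun p hp => one_le_gA P e (hA1 p hp)
  have hgT1 : 1 ≤ ∏ i ∈ T, gT P i := one_le_prodR _ _ fun p hp => one_le_gT P (hT1 p hp)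
  have hF1 : 1 ≤ Fw P e A T := by unfold Fw; nlinarith
  have hG1 : 1 ≤ Gw P e A T := by unfold Gw; nlinarith
  have hjle := jj_le (P := P) hAT
  set j := jj P A T with hj
  by_cases hne : (T ∪ U).Nonempty
  swap
  · rw [not_nonempty_iff_eq_empty, union_eq_empty] at hne
    obtain ⟨hT0, hU0⟩ := hne
    left
    have hAI : A = I := by rw [← hI, hT0, hU0]; simp
    have e1 : ∏ i ∈ I, (i : ℝ) ^ (e i + 1) = Fw P e A T * Gw P e A T := by
      rw [← FG, hT0, hAI]; simp
    rw [e1]
    calc Fw P e A T * Gw P e A T ≤ X * X ^ (2 ^ j - 1) := mul_le_mul (by linarith) hG (by linarith) hX0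
      _ = X ^ (2 ^ j) := by
          rw [← pow_succ']
          congr 1
          have : 1 ≤ 2 ^ j := Nat.one_le_two_pow
          omega
      _ ≤ X ^ (2 ^ (2 * P.card)) := pow_le_pow_right₀ hX1 (Nat.pow_le_pow_right (by norm_num) hjle)
  have hst := hstep A T U hI hAT hAU hTU hne
  rw [FG P e A T] at hst
  rcases hst with ⟨p, hp, hpl⟩ | ⟨p, hp, hpl⟩
  · -- U to T
    have hpI : p ∈ I := (memI p).2 (Or.inr (Or.inr hp))
    have hpT : p ∉ T := fun h => (disjoint_left.1 hTU) h hp
    have hpA : p ∉ A := fun h => (disjoint_left.1 hAU) h hp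
    have hp0 : (1 : ℝ) ≤ p := by exact_mod_cast h1 p hpI
    have hc1 : (insert p T).card = T.card + 1 := card_insert_of_notMem hpT
    have hc2 : (U.erase p).card + 1 = U.card := card_erase_add_one hp
    have hd1 : A ∪ insert p T ∪ U.erase p = I := by
      ext x; rw [memI]; simp only [mem_union, mem_insert, mem_erase]
      by_cases hx : x = p
      · subst hx; simp [hp]
      · simp [hx, or_assoc]
    have hd2 : Disjoint A (insert p T) := by rw [disjoint_insert_right]; exact ⟨hpA, hAT⟩
    have hd3 : Disjoint A (U.erase p) := hAU.mono_right (erase_subset _ _)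
    have hd4 : Disjoint (insert p T) (U.erase p) := by
      rw [disjoint_insert_left]
      exact ⟨notMem_erase _ _, hTU.mono_right (erase_subset _ _)⟩
    have eF : Fw P e A (insert p T) = Fw P e A T * fT P p := by
      unfold Fw; rw [prod_insert hpT]; ring
    have eG : Gw P e A (insert p T) = Gw P e A T * gT P p := by
      unfold Gw; rw [prod_insert hpT]; ring
    by_cases hpP : p ∈ P
    · have eF' : fT P p = 1 := by unfold fT; simp [hpP]
      have eG' : gT P p = p := by unfold gT; simp [hpP]
      have ej : jj P A (insert p T) = j + 1 := by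
        rw [hj]; unfold jj
        rw [filter_insert, if_pos hpP, card_insert_of_notMem (by simp [hpT])]
        ring
      refine ih (T.card + 1 + 2 * (U.erase p).card) (by omega) A (insert p T) (U.erase p) hd1 hd2 hd3 hd4
        (by rw [hc1]) ?_ ?_
      · rw [eF, eF', mul_one]; exact hF
      · rw [eG, eG', ej]
        exact bad_ineq hX hX1 hk0 hF.le (by linarith) hG hpl
    · have eF' : fT P p = p := by unfold fT; simp [hpP]
      have eG' : gT P p = 1 := by unfold gT; simp [hpP]
      have ej : jj P A (insert p T) = j := by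
        rw [hj]; unfold jj
        rw [filter_insert, if_neg hpP]
      by_cases hlt : Fw P e A (insert p T) < R
      · refine ih (T.card + 1 + 2 * (U.erase p).card) (by omega) A (insert p T) (U.erase p) hd1 hd2 hd3 hd4
          (by rw [hc1]) hlt ?_
        rw [eG, eG', ej, mul_one]
        exact hG
      · right
        refine ⟨A, insert p T, fun x hx => (memI x).2 (Or.inl hx), ?_, hd2, not_lt.1 hlt, ?_⟩
        · intro x hx
          rw [mem_insert] at hx
          rcases hx with rfl | hx
          · exact hpI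
          · exact (memI x).2 (Or.inr (Or.inl hx))
        · rw [eF, eF']
          exact free_ineq hX (by linarith) hRX hX1 hk0 (by linarith) hF.le (by linarith) hG hpl hjle
  · rw [mem_union] at hp
    rcases hp with hp | hp
    · -- T to A
      have hpI : p ∈ I := (memI p).2 (Or.inr (Or.inl hp))
      have hpU : p ∉ U := fun h => (disjoint_left.1 hTU) hp h
      have hpA : p ∉ A := fun h => (disjoint_left.1 hAT) h hp
      have hp0 : (1 : ℝ) ≤ p := by exact_mod_cast h1 p hpI
      have hpp : (1 : ℝ) ≤ (p : ℝ) ^ (e p + 1) := one_le_pow₀ hp0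
      have hc1 : (T.erase p).card + 1 = T.card := card_erase_add_one hp
      have hd1 : insert p A ∪ T.erase p ∪ U = I := by
        ext x; rw [memI]; simp only [mem_union, mem_insert, mem_erase]
        by_cases hx : x = p
        · subst hx; simp [hp]
        · simp [hx, or_assoc]
      have hd2 : Disjoint (insert p A) (T.erase p) := by
        rw [disjoint_insert_left]
        exact ⟨notMem_erase _ _, hAT.mono_right (erase_subset _ _)⟩
      have hd3 : Disjoint (insert p A) U := by rw [disjoint_insert_left]; exact ⟨hpU, hAU⟩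
      have hd4 : Disjoint (T.erase p) U := hTU.mono_left (erase_subset _ _)
      have eF : Fw P e (insert p A) (T.erase p) * fT P p = Fw P e A T * fA P e p := by
        unfold Fw; rw [prod_insert hpA, ← prod_erase_mul T _ hp]; ring
      have eG : Gw P e (insert p A) (T.erase p) * gT P p = Gw P e A T * gA P e p := by
        unfold Gw; rw [prod_insert hpA, ← prod_erase_mul T _ hp]; ring
      have hFn : 1 ≤ Fw P e (insert p A) (T.erase p) := by
        unfold Fw
        have a1 : 1 ≤ ∏ i ∈ insert p A, fA P e i := one_le_prodR _ _ fun q hq => by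
          rw [mem_insert] at hq
          rcases hq with rfl | hq
          · exact one_le_fA P e (h1 _ hpI)
          · exact one_le_fA P e (hA1 q hq)
        have a2 : 1 ≤ ∏ i ∈ T.erase p, fT P i := one_le_prodR _ _ fun q hq => one_le_fT P (hT1 q (mem_of_mem_erase hq))
        nlinarith
      have hGn : 1 ≤ Gw P e (insert p A) (T.erase p) := by
        unfold Gw
        have a1 : 1 ≤ ∏ i ∈ insert p A, gA P e i := one_le_prodR _ _ fun q hq => by
          rw [mem_insert] at hq
          rcases hq with rfl | hq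
          · exact one_le_gA P e (h1 _ hpI)
          · exact one_le_gA P e (hA1 q hq)
        have a2 : 1 ≤ ∏ i ∈ T.erase p, gT P i := one_le_prodR _ _ fun q hq => one_le_gT P (hT1 q (mem_of_mem_erase hq))
        nlinarith
      by_cases hpP : p ∈ P
      · have f1 : fT P p = 1 := by unfold fT; simp [hpP]
        have f2 : gT P p = p := by unfold gT; simp [hpP]
        have f3 : fA P e p = 1 := by unfold fA; simp [hpP]
        have f4 : gA P e p = (p : ℝ) ^ (e p + 1) := by unfold gA; simp [hpP]
        rw [f1, f3, mul_one, mul_one] at eF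
        rw [f2, f4] at eG
        have ej : jj P (insert p A) (T.erase p) = j + 1 := by
          rw [hj]; unfold jj
          rw [filter_insert, if_pos hpP, card_insert_of_notMem (by simp [hpA])]
          have h5 : (T.filter (· ∈ P)) = insert p ((T.erase p).filter (· ∈ P)) := by
            ext x; simp only [mem_filter, mem_insert, mem_erase]
            by_cases hx : x = p
            · subst hx; simp [hp, hpP]
            · simp [hx]
          rw [h5, card_insert_of_notMem (by simp)]
          ring
        refine ih ((T.erase p).card + 2 * U.card) (by omega) (insert p A) (T.erase p) U hd1 hd2 hd3 hd4 rfl ?_ ?_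
        · rw [eF]; exact hF
        · rw [ej]
          calc Gw P e (insert p A) (T.erase p) ≤ Gw P e (insert p A) (T.erase p) * p :=
                le_mul_of_one_le_right (by linarith) hp0
            _ = Gw P e A T * (p : ℝ) ^ (e p + 1) := eG
            _ ≤ _ := bad_ineq hX hX1 hk0 hF.le (by linarith) hG hpl
      · have f1 : fT P p = p := by unfold fT; simp [hpP]
        have f2 : gT P p = 1 := by unfold gT; simp [hpP]
        have f3 : fA P e p = (p : ℝ) ^ (e p + 1) := by unfold fA; simp [hpP]
        have f4 : gA P e p = 1 := by unfold gA; simp [hpP]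
        rw [f1, f3] at eF
        rw [f2, f4, mul_one, mul_one] at eG
        have ej : jj P (insert p A) (T.erase p) = j := by
          rw [hj]; unfold jj
          rw [filter_insert, if_neg hpP]
          have h5 : (T.filter (· ∈ P)) = ((T.erase p).filter (· ∈ P)) := by
            ext x; simp only [mem_filter, mem_erase]
            by_cases hx : x = p
            · subst hx; simp [hpP]
            · simp [hx]
          rw [h5]
        have hFle : Fw P e (insert p A) (T.erase p) ≤ Fw P e A T * (p : ℝ) ^ (e p + 1) := by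
          rw [← eF]
          exact le_mul_of_one_le_right (by linarith) hp0
        by_cases hlt : Fw P e (insert p A) (T.erase p) < R
        · refine ih ((T.erase p).card + 2 * U.card) (by omega) (insert p A) (T.erase p) U hd1 hd2 hd3 hd4 rfl hlt ?_
          rw [eG, ej]
          exact hG
        · right
          refine ⟨insert p A, T.erase p, ?_, fun x hx => (memI x).2 (Or.inr (Or.inl (mem_of_mem_erase hx))), hd2,
            not_lt.1 hlt, ?_⟩
          · intro x hx
            rw [mem_insert] at hx
            rcases hx with rfl | hx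
            · exact hpI
            · exact (memI x).2 (Or.inl hx)
          · exact hFle.trans (free_ineq hX (by linarith) hRX hX1 hk0 (by linarith) hF.le (by linarith) hG hpl hjle)
    · -- U to A
      have hpI : p ∈ I := (memI p).2 (Or.inr (Or.inr hp))
      have hpT : p ∉ T := fun h => (disjoint_left.1 hTU) h hp
      have hpA : p ∉ A := fun h => (disjoint_left.1 hAU) h hp
      have hp0 : (1 : ℝ) ≤ p := by exact_mod_cast h1 p hpI
      have hc1 : (U.erase p).card + 1 = U.card := card_erase_add_one hp
      have hd1 : insert p A ∪ T ∪ U.erase p = I := by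
        ext x; rw [memI]; simp only [mem_union, mem_insert, mem_erase]
        by_cases hx : x = p
        · subst hx; simp [hp]
        · simp [hx, or_assoc]
      have hd2 : Disjoint (insert p A) T := by rw [disjoint_insert_left]; exact ⟨hpT, hAT⟩
      have hd3 : Disjoint (insert p A) (U.erase p) := by
        rw [disjoint_insert_left]
        exact ⟨notMem_erase _ _, hAU.mono_right (erase_subset _ _)⟩
      have hd4 : Disjoint T (U.erase p) := hTU.mono_right (erase_subset _ _)
      have eF : Fw P e (insert p A) T = Fw P e A T * fA P e p := by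
        unfold Fw; rw [prod_insert hpA]; ring
      have eG : Gw P e (insert p A) T = Gw P e A T * gA P e p := by
        unfold Gw; rw [prod_insert hpA]; ring
      by_cases hpP : p ∈ P
      · have f3 : fA P e p = 1 := by unfold fA; simp [hpP]
        have f4 : gA P e p = (p : ℝ) ^ (e p + 1) := by unfold gA; simp [hpP]
        rw [f3, mul_one] at eF
        rw [f4] at eG
        have ej : jj P (insert p A) T = j + 1 + 1 := by
          rw [hj]; unfold jj
          rw [filter_insert, if_pos hpP, card_insert_of_notMem (by simp [hpA])]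
          ring
        refine ih (T.card + 2 * (U.erase p).card) (by omega) (insert p A) T (U.erase p) hd1 hd2 hd3 hd4 rfl ?_ ?_
        · rw [eF]; exact hF
        · rw [ej, eG]
          refine (bad_ineq hX hX1 hk0 hF.le (by linarith) hG hpl).trans ?_
          apply pow_le_pow_right₀ hX1
          have : 2 ^ (j + 1) ≤ 2 ^ (j + 1 + 1) := Nat.pow_le_pow_right (by norm_num) (by omega)
          omega
      · have f3 : fA P e p = (p : ℝ) ^ (e p + 1) := by unfold fA; simp [hpP]
        have f4 : gA P e p = 1 := by unfold gA; simp [hpP]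
        rw [f3] at eF
        rw [f4, mul_one] at eG
        have ej : jj P (insert p A) T = j := by
          rw [hj]; unfold jj
          rw [filter_insert, if_neg hpP]
        by_cases hlt : Fw P e (insert p A) T < R
        · refine ih (T.card + 2 * (U.erase p).card) (by omega) (insert p A) T (U.erase p) hd1 hd2 hd3 hd4 rfl hlt ?_
          rw [eG, ej]
          exact hG
        · right
          refine ⟨insert p A, T, ?_, fun x hx => (memI x).2 (Or.inr (Or.inl hx)), hd2, not_lt.1 hlt, ?_⟩
          · intro x hx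
            rw [mem_insert] at hx
            rcases hx with rfl | hx
            · exact hpI
            · exact (memI x).2 (Or.inl hx)
          · rw [eF]
            exact free_ineq hX (by linarith) hRX hX1 hk0 (by linarith) hF.le (by linarith) hG hpl hjle

end Pool.Agent.D0H92.OP
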