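import Pool.Agent.D0H92.OP.Crit
import Pool.Agent.D0H92.LE.Main

set_option autoImplicit false

/-!
# Odd perfect numbers in digit sets and in short intervals
-/

namespace Pool.Agent.D0H92.OP

open Finset Filter Pool.Agent.D0H92.AG Pool.Agent.D0H92.RG Pool.Agent.D0H92.QC Pool.Agent.D0H92.LE

open Classical in
theorem digits_perfect (B : ℕ) (hB : 2 ≤ B) (m : ℕ) :
    ∃ κ : ℝ, 0 < κ ∧ κ < 1 ∧ ∃ N₀ : ℕ, ∀ N : ℕ, N₀ ≤ N → ∀ A : Fin N → Finset ℕ, (∀ j, ∀ a ∈ A j, a < B) →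
      (∀ j, 2 ≤ (A j).card) → ∀ (c g : ℤ), g ≠ 0 → g.natAbs.primeFactors.card ≤ m →
      |(c : ℝ)| ≤ Real.exp (((Fintype.piFinset A).card : ℝ) ^ κ) → |(g : ℝ)| ≤ Real.exp (((Fintype.piFinset A).card : ℝ) ^ κ) →
      ((((Fintype.piFinset A).image fun t => QC.num c g B t).filter fun n => OddPerfect n).card : ℝ) ≤
        ((Fintype.piFinset A).card : ℝ) ^ (1 - κ) := by
  obtain ⟨K, hKB, hK, hx⟩ := exists_K B hB
  have hK0 : (0 : ℝ) < K := by exact_mod_cast hK
  have hK1 : (1 : ℝ) ≤ K := by exact_mod_cast hK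
  have hB0 : (0 : ℝ) < B := by exact_mod_cast (by omega : 0 < B)
  have hB1 : (1 : ℝ) < B := by exact_mod_cast (by omega : 1 < B)
  have hlB : 0 ≤ Real.log B := Real.log_nonneg hB1.le
  obtain ⟨κ', hκ'⟩ : ∃ κ' : ℝ, κ' = (1 / (4 * K)) * (1 / 2) / (8 * (4 ^ (m + B + 1) + 1)) := ⟨_, rfl⟩
  have hK4 : (1 : ℝ) / (4 * K) ≤ 1 / 2 := by
    apply one_div_le_one_div_of_le (by norm_num); linarith
  have hκ'0 : 0 < κ' := by rw [hκ']; positivity
  have hκ'1 : κ' < 1 := by
    rw [hκ', div_lt_one (by positivity)]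
    have h4 : (0 : ℝ) < 4 ^ (m + B + 1) := by positivity
    nlinarith
  obtain ⟨M₀, hM₀⟩ := criterion (m + B) (1 / (4 * K)) (1 / 2) 2 κ' (by positivity) hK4 (by norm_num) (by norm_num) (by norm_num) hκ'
  have hl2 : 0 < Real.log 2 := Real.log_pos (by norm_num)
  -- N large
  have e1 : ∀ᶠ N : ℕ in atTop, (Real.log B + 2) * N ≤ Real.exp ((Real.log 2 * (κ' / 2)) * N) := by
    have h1 := (isLittleO_pow_exp_pos_mul_atTop 1 (show 0 < Real.log 2 * (κ' / 2) by positivity)).def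
      (show (0 : ℝ) < 1 / (Real.log B + 2) by positivity)
    have h2 := tendsto_natCast_atTop_atTop (R := ℝ) |>.eventually h1
    filter_upwards [h2] with N h3
    rw [pow_one, Real.norm_eq_abs, Real.norm_eq_abs, abs_of_nonneg (Nat.cast_nonneg _), abs_of_pos (Real.exp_pos _)] at h3
    rw [one_div_mul_eq_div, le_div_iff₀ (by positivity)] at h3
    linarith
  obtain ⟨N₁, hN₁⟩ := eventually_atTop.1 e1
  refine ⟨κ' / 2, by positivity, by linarith, N₁ + 2 * K + M₀ + 4, ?_⟩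
  intro N hN A hA h2 c g hg hgm hcN hgN
  have hN2 := hN₁ N (by omega)
  set F := Fintype.piFinset A with hF
  set M : ℝ := (F.card : ℝ) with hM
  have hMB : M ≤ (B : ℝ) ^ N := card_family B N A hA
  have hM2 : (2 : ℝ) ^ N ≤ M := card_family' N A h2
  have hM1 : 1 ≤ M := (one_le_pow₀ (by norm_num)).trans hM2
  have hM0 : 0 < M := by linarith
  set S := F.image fun t => QC.num c g B t with hS
  have hinj := num_inj (c := c) hg hB A hA
  have hcard : S.card = F.card := card_image_of_injOn hinj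
  set P := (g.natAbs * B.factorial).primeFactors with hP
  have hgn : g.natAbs ≠ 0 := Int.natAbs_ne_zero.2 hg
  have hfac : B.factorial ≠ 0 := B.factorial_ne_zero
  have hPc : P.card ≤ m + B := by
    rw [hP, Nat.primeFactors_mul hgn hfac]
    refine (card_union_le _ _).trans (Nat.add_le_add hgm ?_)
    have h3 : B.factorial.primeFactors ⊆ Icc 1 B := by
      intro p hp
      have hpp := Nat.prime_of_mem_primeFactors hp
      rw [mem_Icc]
      exact ⟨hpp.one_lt.le, (hpp.dvd_factorial).1 (Nat.dvd_of_mem_primeFactors hp)⟩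
    have := card_le_card h3
    rwa [Nat.card_Icc, Nat.add_sub_cancel] at this
  have hMM₀ : M₀ ≤ S.card := by
    rw [hcard]
    have h3 : (M₀ : ℝ) ≤ M := by
      calc (M₀ : ℝ) ≤ N := by exact_mod_cast (by omega : M₀ ≤ N)
        _ ≤ (2 : ℝ) ^ N := by exact_mod_cast (Nat.lt_two_pow_self (n := N)).le
        _ ≤ M := hM2
    rw [hM] at h3
    exact_mod_cast h3
  -- the size
  have hzbig : (Real.log B + 2) * N ≤ M ^ (κ' / 2) := by
    refine hN2.trans ?_
    calc Real.exp ((Real.log 2 * (κ' / 2)) * N) = ((2 : ℝ) ^ N) ^ (κ' / 2) := by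
          rw [← Real.rpow_natCast, ← Real.rpow_mul (by norm_num), Real.rpow_def_of_pos (by norm_num)]
          congr 1
          ring
      _ ≤ M ^ (κ' / 2) := Real.rpow_le_rpow (by positivity) hM2 (by positivity)
  have hN4 : (4 : ℝ) ≤ N := by exact_mod_cast (by omega : 4 ≤ N)
  have hsize : ∀ n ∈ S, (n : ℝ) ≤ Real.exp ((S.card : ℝ) ^ κ') := by
    intro n hn
    rw [hcard]
    obtain ⟨t, ht, rfl⟩ := mem_image.1 hn
    obtain ⟨S', hS'⟩ : ∃ S' : ℕ, S' = ∑ j : Fin N, B ^ (j : ℕ) * t j := ⟨_, rfl⟩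
    have h4 : QC.num c g B t = c + g * S' := by unfold QC.num; rw [hS']; push_cast; rfl
    have h5 : (S' : ℝ) ≤ (B : ℝ) ^ N := by
      have := sum_lt B t (fun j => hA j _ (Fintype.mem_piFinset.1 ht j))
      rw [← hS'] at this
      exact_mod_cast this.le
    have h6 : (1 : ℝ) ≤ (B : ℝ) ^ N := one_le_pow₀ hB1.le
    have h7 : ((QC.num c g B t : ℤ) : ℝ) ≤ Real.exp (M ^ (κ' / 2)) * (2 * (B : ℝ) ^ N) := by
      rw [h4]
      push_cast
      calc (c : ℝ) + g * S' ≤ |(c : ℝ)| + |(g : ℝ)| * S' := by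
            apply add_le_add (le_abs_self _)
            exact mul_le_mul_of_nonneg_right (le_abs_self _) (Nat.cast_nonneg _)
        _ ≤ Real.exp (M ^ (κ' / 2)) + Real.exp (M ^ (κ' / 2)) * (B : ℝ) ^ N :=
            add_le_add hcN (mul_le_mul hgN h5 (Nat.cast_nonneg _) (Real.exp_pos _).le)
        _ ≤ _ := by nlinarith [Real.exp_pos (M ^ (κ' / 2))]
    refine h7.trans ?_
    have h8 : (2 * (B : ℝ) ^ N) ≤ Real.exp (1 + N * Real.log B) := by
      rw [Real.exp_add, mul_comm (N : ℝ), Real.exp_mul, Real.exp_log hB0, Real.rpow_natCast]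
      apply mul_le_mul_of_nonneg_right _ (by positivity)
      have := Real.add_one_le_exp (1 : ℝ)
      linarith
    calc Real.exp (M ^ (κ' / 2)) * (2 * (B : ℝ) ^ N) ≤ Real.exp (M ^ (κ' / 2)) * Real.exp (1 + N * Real.log B) :=
          mul_le_mul_of_nonneg_left h8 (Real.exp_pos _).le
      _ = Real.exp (M ^ (κ' / 2) + (1 + N * Real.log B)) := by rw [← Real.exp_add]
      _ ≤ Real.exp (M ^ κ') := by
          apply Real.exp_le_exp.2
          have h9 : M ^ κ' = M ^ (κ' / 2) * M ^ (κ' / 2) := by rw [← Real.rpow_add hM0]; congr 1; ring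
          rw [h9]
          have h10 : 1 + N * Real.log B ≤ M ^ (κ' / 2) := by nlinarith
          have h11 : 2 ≤ M ^ (κ' / 2) := by nlinarith
          nlinarith
  -- the divisors
  have hdiv : ∀ r : ℕ, 1 ≤ r → (r : ℝ) ≤ (S.card : ℝ) ^ (1 / (4 * K) : ℝ) → (∀ p ∈ P, p.Prime → ¬ p ∣ r) →
      ((S.filter fun n => (r : ℤ) ^ 2 ∣ n).card : ℝ) ≤ 2 * S.card * (r : ℝ) ^ (-(1 + 1 / 2) : ℝ) := by
    intro r hr hrM hrP
    rw [hcard] at hrM ⊢
    have hr0 : (0 : ℝ) < r := by exact_mod_cast hr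
    have hsub : ((S.filter fun n => (r : ℤ) ^ 2 ∣ n).card) ≤
        (F.filter fun t => ((r ^ 2 : ℕ) : ℤ) ∣ RG.val (g.sign * c) g.natAbs B t - 0).card := by
      rw [hS, filter_image]
      refine card_image_le.trans (card_le_card ?_)
      intro t ht
      rw [mem_filter] at ht ⊢
      refine ⟨ht.1, ?_⟩
      have h8 := ht.2
      rw [num_eq (c := c) hg B t] at h8
      have h9 : g.sign * g.sign = 1 := by
        rcases sign_pm hg with h | h <;> rw [h] <;> norm_num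
      have h10 := h8.mul_left g.sign
      rw [← mul_assoc, h9, one_mul] at h10
      rw [sub_zero]
      push_cast
      exact h10
    have hcop : Nat.Coprime (r ^ 2) (g.natAbs * B.factorial) := by
      by_contra hnc
      obtain ⟨p, hp, hp1, hp2⟩ := Nat.Prime.not_coprime_iff_dvd.1 hnc
      have hpP : p ∈ P := by
        rw [hP, Nat.mem_primeFactors]
        exact ⟨hp, hp2, mul_ne_zero hgn hfac⟩
      exact hrP p hpP hp (hp.dvd_of_dvd_pow hp1)
    have hlogN : K * (Nat.log B (r ^ 2) + 1) ≤ N := by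
      have h3 : ((B : ℝ)) ^ (Nat.log B (r ^ 2)) ≤ (r : ℝ) ^ 2 := by
        exact_mod_cast Nat.pow_log_le_self B (pow_ne_zero 2 (by omega : r ≠ 0))
      have h4 : (r : ℝ) ^ 2 ≤ (B : ℝ) ^ ((N : ℝ) / (2 * K)) := by
        calc (r : ℝ) ^ 2 ≤ (M ^ (1 / (4 * K) : ℝ)) ^ 2 := pow_le_pow_left₀ hr0.le hrM 2
          _ = M ^ (1 / (2 * K) : ℝ) := by
              rw [← Real.rpow_natCast, ← Real.rpow_mul hM0.le]
              congr 1
              push_cast
              field_simp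
              norm_num
          _ ≤ ((B : ℝ) ^ N) ^ (1 / (2 * K) : ℝ) := Real.rpow_le_rpow hM0.le hMB (by positivity)
          _ = (B : ℝ) ^ ((N : ℝ) / (2 * K)) := by
              rw [← Real.rpow_natCast, ← Real.rpow_mul hB0.le]
              congr 1
              ring
      have h5 := h3.trans h4
      rw [← Real.rpow_natCast, Real.rpow_le_rpow_left_iff hB1, le_div_iff₀ (by positivity)] at h5
      have h6 : Nat.log B (r ^ 2) * (2 * K) ≤ N := by exact_mod_cast h5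
      have h7 : 2 * K ≤ N := by omega
      nlinarith
    calc ((S.filter fun n => (r : ℤ) ^ 2 ∣ n).card : ℝ)
        ≤ ((F.filter fun t => ((r ^ 2 : ℕ) : ℤ) ∣ RG.val (g.sign * c) g.natAbs B t - 0).card : ℝ) := by exact_mod_cast hsub
      _ ≤ F.card * (2 * ((r ^ 2 : ℕ) : ℝ) ^ (-(3 / 4) : ℝ)) :=
          class_count (g.sign * c) g.natAbs B hB A hA h2 K hK hx (r ^ 2) (Nat.one_le_pow _ _ (by omega)) hcop hlogN 0
      _ = 2 * F.card * (r : ℝ) ^ (-(1 + 1 / 2) : ℝ) := by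
          push_cast
          rw [← Real.rpow_natCast (r : ℝ) 2, ← Real.rpow_mul hr0.le]
          norm_num
          ring
  have hfin := hM₀ S P hMM₀ hPc hsize hdiv
  refine hfin.trans ?_
  rw [hcard]
  exact Real.rpow_le_rpow_of_exponent_le hM1 (by linarith)

theorem mult_count (x y : ℤ) (q : ℕ) (hq : 1 ≤ q) (hxy : x ≤ y) :
    (((Finset.Ioc x y).filter fun n : ℤ => (q : ℤ) ∣ n).card : ℝ) ≤ ((y - x : ℤ) : ℝ) / q + 1 := by
  have hq0 : (0 : ℤ) < q := by exact_mod_cast hq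
  have hqr : (0 : ℝ) < q := by exact_mod_cast hq
  have h1 : ((Finset.Ioc x y).filter fun n : ℤ => (q : ℤ) ∣ n).card ≤ (Finset.Ioc (x / q) (y / q)).card := by
    apply card_le_card_of_injOn (fun n : ℤ => n / (q : ℤ))
    · intro n hn
      rw [mem_coe, mem_filter, mem_Ioc] at hn
      obtain ⟨⟨h1, h2⟩, k, hk⟩ := hn
      rw [mem_coe, mem_Ioc]
      show x / (q : ℤ) < n / (q : ℤ) ∧ n / (q : ℤ) ≤ y / (q : ℤ)
      rw [hk, Int.mul_ediv_cancel_left _ hq0.ne']
      constructor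
      · rw [Int.ediv_lt_iff_lt_mul hq0]; rw [hk] at h1; linarith
      · rw [Int.le_ediv_iff_mul_le hq0]; rw [hk] at h2; linarith
    · intro n hn n' hn' h
      rw [mem_coe, mem_filter] at hn hn'
      obtain ⟨k, hk⟩ := hn.2
      obtain ⟨k', hk'⟩ := hn'.2
      simp only [hk, hk', Int.mul_ediv_cancel_left _ hq0.ne'] at h
      rw [hk, hk', h]
  rw [Int.card_Ioc] at h1
  have h2 : (((y / (q : ℤ) - x / q).toNat : ℕ) : ℝ) = ((y / (q : ℤ) - x / q : ℤ) : ℝ) := by
    have h3 : 0 ≤ y / (q : ℤ) - x / q := by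
      have := Int.ediv_le_ediv hq0 hxy
      omega
    have h4 := Int.toNat_of_nonneg h3
    have h5 : ((((y / (q : ℤ) - x / q).toNat : ℕ) : ℤ) : ℝ) = ((y / (q : ℤ) - x / q : ℤ) : ℝ) := by rw [h4]
    rwa [Int.cast_natCast] at h5
  have h3 : ((y / (q : ℤ) - x / q : ℤ) : ℝ) ≤ ((y - x : ℤ) : ℝ) / q + 1 := by
    have a1 : ((y / (q : ℤ) : ℤ) : ℝ) ≤ (y : ℝ) / q := by
      rw [le_div_iff₀ hqr]
      exact_mod_cast Int.ediv_mul_le y hq0.ne'
    have a2 : (x : ℝ) / q ≤ ((x / (q : ℤ) : ℤ) : ℝ) + 1 := by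
      rw [div_le_iff₀ hqr]
      have h5 := Int.lt_ediv_add_one_mul_self x hq0
      exact_mod_cast h5.le
    push_cast
    rw [sub_div]
    linarith
  calc (((Finset.Ioc x y).filter fun n : ℤ => (q : ℤ) ∣ n).card : ℝ) ≤ (((y / (q : ℤ) - x / q).toNat : ℕ) : ℝ) := by
        exact_mod_cast h1
    _ ≤ _ := by rw [h2]; exact h3

open Classical in
theorem interval_perfect : ∃ y₀ : ℕ, ∀ x y : ℕ, y₀ ≤ y → ((x + y : ℕ) : ℝ) ≤ Real.exp ((y : ℝ) ^ (1 / 80 : ℝ)) →
    (((Finset.Ioc x (x + y)).filter fun n => Odd n ∧ n.Perfect).card : ℝ) ≤ (y : ℝ) ^ (1 - 1 / 80 : ℝ) := by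
  obtain ⟨M₀, hM₀⟩ := criterion 0 (1 / 2) 1 2 (1 / 80) (by norm_num) (by norm_num) (by norm_num) (by norm_num) (by norm_num)
    (by norm_num)
  refine ⟨M₀ + 1, ?_⟩
  intro x y hy hxy
  set S : Finset ℤ := Finset.Ioc (x : ℤ) ((x + y : ℕ) : ℤ) with hS
  have hcard : S.card = y := by rw [hS, Int.card_Ioc]; push_cast; omega
  have hy0 : (1 : ℝ) ≤ y := by exact_mod_cast (by omega : 1 ≤ y)
  have h1 := hM₀ S ∅ (by rw [hcard]; omega) (by simp)
    (by
      intro n hn
      rw [hcard]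
      rw [hS, mem_Ioc] at hn
      refine le_trans ?_ hxy
      exact_mod_cast hn.2)
    (by
      intro r hr hrM _
      rw [hcard] at hrM ⊢
      have hr0 : (0 : ℝ) < r := by exact_mod_cast hr
      have h3 := mult_count (x : ℤ) ((x + y : ℕ) : ℤ) (r ^ 2) (Nat.one_le_pow _ _ (by omega)) (by push_cast; omega)
      have e1 : (((x + y : ℕ) : ℤ) - (x : ℤ) : ℤ) = (y : ℤ) := by push_cast; ring
      rw [e1] at h3
      have hr2 : (r : ℝ) ^ 2 ≤ y := by
        calc (r : ℝ) ^ 2 ≤ ((y : ℝ) ^ (1 / 2 : ℝ)) ^ 2 := pow_le_pow_left₀ hr0.le hrM 2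
          _ = y := by
              rw [← Real.rpow_natCast, ← Real.rpow_mul (by linarith)]
              norm_num
      have h4 : (1 : ℝ) ≤ (y : ℝ) / r ^ 2 := by rw [one_le_div (by positivity)]; exact hr2
      have e2 : (r : ℝ) ^ (-(1 + 1) : ℝ) = 1 / (r : ℝ) ^ 2 := by
        rw [Real.rpow_neg hr0.le, one_div]
        norm_num
      rw [e2]
      push_cast at h3
      calc ((S.filter fun n => (r : ℤ) ^ 2 ∣ n).card : ℝ) ≤ (y : ℝ) / r ^ 2 + 1 := by
            rw [hS]; push_cast; exact h3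
        _ ≤ 2 * y * (1 / (r : ℝ) ^ 2) := by
            have : 2 * (y : ℝ) * (1 / (r : ℝ) ^ 2) = (y : ℝ) / r ^ 2 + (y : ℝ) / r ^ 2 := by ring
            rw [this]
            linarith)
  rw [hcard] at h1
  refine le_trans ?_ h1
  have h2 : ((Finset.Ioc x (x + y)).filter fun n => Odd n ∧ n.Perfect).card ≤ (S.filter fun n => OddPerfect n).card := by
    apply card_le_card_of_injOn (fun n : ℕ => (n : ℤ))
    · intro n hn
      rw [mem_coe, mem_filter, mem_Ioc] at hn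
      rw [mem_coe, mem_filter, hS, mem_Ioc]
      have a1 : (x : ℤ) < (n : ℤ) := by exact_mod_cast hn.1.1
      have a2 : (n : ℤ) ≤ ((x + y : ℕ) : ℤ) := by exact_mod_cast hn.1.2
      refine ⟨⟨a1, a2⟩, ?_⟩
      unfold OddPerfect
      rw [Int.toNat_natCast]
      exact hn.2
    · intro n _ n' _ h
      have h' : (n : ℤ) = (n' : ℤ) := h
      exact_mod_cast h'
  exact_mod_cast h2

end Pool.Agent.D0H92.OP
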