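import Mathlib

set_option autoImplicit false

/-!
# Odd perfect values of polynomials in short intervals
-/

namespace Pool.Agent.D0H92.OP

open Finset Filter Polynomial

/-- the resultant relation -/
lemma exists_rel (f : ℤ[X]) (hf : Squarefree (f.map (Int.castRingHom ℚ))) :
    ∃ (D : ℤ) (u v : ℤ[X]), D ≠ 0 ∧ u * f + v * derivative f = C D := by
  have hsep : (f.map (Int.castRingHom ℚ)).Separable := PerfectField.separable_iff_squarefree.2 hf
  obtain ⟨a, b, hab⟩ := hsep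
  obtain ⟨s, hsm, hs⟩ := IsLocalization.integerNormalization_spec (nonZeroDivisors ℤ) a
  obtain ⟨t, htm, ht⟩ := IsLocalization.integerNormalization_spec (nonZeroDivisors ℤ) b
  have hs0 : s ≠ 0 := nonZeroDivisors.ne_zero hsm
  have ht0 : t ≠ 0 := nonZeroDivisors.ne_zero htm
  refine ⟨s * t, C t * IsLocalization.integerNormalization (nonZeroDivisors ℤ) a,
    C s * IsLocalization.integerNormalization (nonZeroDivisors ℤ) b, mul_ne_zero hs0 ht0, ?_⟩
  apply Polynomial.map_injective (Int.castRingHom ℚ) (RingHom.injective_int _)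
  have e1 : (algebraMap ℤ ℚ) = Int.castRingHom ℚ := rfl
  rw [e1] at hs ht
  rw [derivative_map] at hab
  have e2 : ∀ z : ℤ, (C ((Int.castRingHom ℚ) z) : ℚ[X]) = (z : ℚ[X]) := fun z => by simp
  simp only [Polynomial.map_add, Polynomial.map_mul, Polynomial.map_C, hs, ht, zsmul_eq_mul, e2, Int.cast_mul]
  linear_combination ((s : ℚ[X]) * (t : ℚ[X])) * hab

lemma not_dvd_deriv {f : ℤ[X]} {D : ℤ} {u v : ℤ[X]} (h : u * f + v * derivative f = C D) {p : ℤ} (hpD : ¬ p ∣ D) {m : ℤ}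
    (hm : p ∣ f.eval m) : ¬ p ∣ (derivative f).eval m := by
  intro h2
  apply hpD
  have h3 := congrArg (fun g : ℤ[X] => g.eval m) h
  simp only [eval_add, eval_mul, eval_C] at h3
  rw [← h3]
  exact dvd_add (hm.mul_left _) (h2.mul_left _)

/-- members of one class modulo the primes of `r` are congruent modulo `r ^ 2` -/
lemma congr_sq {f : ℤ[X]} {D : ℤ} {u v : ℤ[X]} (h : u * f + v * derivative f = C D) {r : ℕ} (hr : r ≠ 0)
    (hrD : ∀ p : ℕ, p.Prime → p ∣ r → ¬ (p : ℤ) ∣ D) {m m' : ℤ} (hm : (r : ℤ) ^ 2 ∣ f.eval m) (hm' : (r : ℤ) ^ 2 ∣ f.eval m')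
    (hmm : ∀ p : ℕ, p.Prime → p ∣ r → (p : ℤ) ∣ m' - m) : (r : ℤ) ^ 2 ∣ m' - m := by
  obtain ⟨k, hk⟩ := binomExpansion f m (m' - m)
  rw [add_sub_cancel] at hk
  have h1 : (r : ℤ) ^ 2 ∣ (m' - m) * ((derivative f).eval m + k * (m' - m)) := by
    have h2 : (m' - m) * ((derivative f).eval m + k * (m' - m)) = f.eval m' - f.eval m := by rw [hk]; ring
    rw [h2]
    exact dvd_sub hm' hm
  have hcop : IsCoprime ((r : ℤ) ^ 2) ((derivative f).eval m + k * (m' - m)) := by
    rw [Int.isCoprime_iff_gcd_eq_one]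
    by_contra hne
    obtain ⟨p, hp, hpd⟩ := Nat.exists_prime_and_dvd hne
    have hp1 : (p : ℤ) ∣ (r : ℤ) ^ 2 := (Int.natCast_dvd_natCast.2 hpd).trans (Int.gcd_dvd_left _ _)
    have hp2 : (p : ℤ) ∣ (derivative f).eval m + k * (m' - m) := (Int.natCast_dvd_natCast.2 hpd).trans (Int.gcd_dvd_right _ _)
    have hpr : p ∣ r := hp.dvd_of_dvd_pow (by exact_mod_cast hp1)
    have h3 : (p : ℤ) ∣ (derivative f).eval m := by
      have h4 := hp2.sub ((hmm p hp hpr).mul_left k)
      simpa using h4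
    exact not_dvd_deriv h (hrD p hp hpr) (hp1.trans hm) h3
  exact hcop.dvd_of_dvd_mul_right h1

/-- the zeros modulo `p` -/
noncomputable def Zr (f : ℤ[X]) (p : ℕ) : Finset (ZMod p) :=
  if hp : p.Prime then haveI := Fact.mk hp; (f.map (Int.castRingHom (ZMod p))).roots.toFinset else ∅

lemma Zr_card (f : ℤ[X]) (p : ℕ) : (Zr f p).card ≤ f.natDegree := by
  unfold Zr
  split_ifs with hp
  · haveI := Fact.mk hp
    exact ((Multiset.toFinset_card_le _).trans (card_roots' _)).trans natDegree_map_le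
  · simp

lemma mem_Zr {f : ℤ[X]} {p : ℕ} (hp : p.Prime) (h0 : f.map (Int.castRingHom (ZMod p)) ≠ 0) {m : ℤ} (hm : (p : ℤ) ∣ f.eval m) :
    ((m : ℤ) : ZMod p) ∈ Zr f p := by
  unfold Zr
  rw [dif_pos hp]
  haveI := Fact.mk hp
  rw [Multiset.mem_toFinset, mem_roots h0, IsRoot, eval_map]
  have e1 : (((m : ℤ) : ZMod p)) = (Int.castRingHom (ZMod p)) m := rfl
  rw [e1, eval₂_hom, eq_intCast, ZMod.intCast_zmod_eq_zero_iff_dvd]
  exact hm

open Classical in
/-- the number of the classes modulo the primes of `r` -/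
lemma classes_card {f : ℤ[X]} {D : ℤ} {u v : ℤ[X]} (h : u * f + v * derivative f = C D) {r : ℕ}
    (hrD : ∀ p : ℕ, p.Prime → p ∣ r → ¬ (p : ℤ) ∣ D) (T : Finset ℤ) (hT : ∀ m ∈ T, (r : ℤ) ^ 2 ∣ f.eval m) :
    (T.image fun m : ℤ => fun p : r.primeFactors => ((m : ℤ) : ZMod (p : ℕ))).card ≤ f.natDegree ^ r.primeFactors.card := by
  have hsub : (T.image fun m : ℤ => fun p : r.primeFactors => ((m : ℤ) : ZMod (p : ℕ))) ⊆
      Fintype.piFinset fun p : r.primeFactors => Zr f (p : ℕ) := by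
    intro φ hφ
    obtain ⟨m, hm, rfl⟩ := mem_image.1 hφ
    rw [Fintype.mem_piFinset]
    intro p
    have hp := Nat.prime_of_mem_primeFactors p.2
    have hpr := Nat.dvd_of_mem_primeFactors p.2
    have hpf : ((p : ℕ) : ℤ) ∣ f.eval m := by
      refine dvd_trans ?_ (hT m hm)
      exact dvd_trans (Int.natCast_dvd_natCast.2 hpr) (dvd_pow_self _ (by norm_num))
    have h0 : f.map (Int.castRingHom (ZMod (p : ℕ))) ≠ 0 := by
      intro h0
      have h1 := congrArg (Polynomial.map (Int.castRingHom (ZMod (p : ℕ)))) h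
      rw [Polynomial.map_add, Polynomial.map_mul, Polynomial.map_mul, ← derivative_map, h0, derivative_zero, mul_zero,
        mul_zero, add_zero, Polynomial.map_C] at h1
      have h2 : (Int.castRingHom (ZMod (p : ℕ))) D = 0 := by
        have := congrArg (fun g => Polynomial.coeff g 0) h1
        simpa using this.symm
      rw [eq_intCast, ZMod.intCast_zmod_eq_zero_iff_dvd] at h2
      exact hrD p hp hpr h2
    exact mem_Zr hp h0 hpf
  refine (card_le_card hsub).trans ?_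
  rw [Fintype.card_piFinset]
  calc ∏ p : r.primeFactors, (Zr f (p : ℕ)).card ≤ ∏ _p : r.primeFactors, f.natDegree :=
        prod_le_prod' fun p _ => Zr_card f p
    _ = f.natDegree ^ r.primeFactors.card := by
        rw [prod_const, card_univ, Fintype.card_coe]

/-- numbers of one class in an interval -/
lemma fiber_card (q : ℕ) (hq : 1 ≤ q) (x : ℤ) (y : ℕ) (T : Finset ℤ) (hT : T ⊆ Finset.Ioc x (x + y))
    (h : ∀ m ∈ T, ∀ m' ∈ T, (q : ℤ) ∣ m' - m) : T.card ≤ y / q + 1 := by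
  have hq0 : (0 : ℤ) < q := by exact_mod_cast hq
  rcases T.eq_empty_or_nonempty with h0 | hne
  · rw [h0]; simp
  obtain ⟨m₀, hm₀, hmin⟩ := T.exists_min_image id hne
  have h1 : T.card ≤ (range (y / q + 1)).card := by
    apply card_le_card_of_injOn (fun m : ℤ => ((m - m₀) / q).toNat)
    · intro m hm
      rw [mem_coe] at hm
      rw [mem_coe, mem_range]
      have a1 := mem_Ioc.1 (hT hm)
      have a2 := mem_Ioc.1 (hT hm₀)
      have a3 : m₀ ≤ m := hmin m hm
      have a4 : (m - m₀) / (q : ℤ) ≤ (y : ℤ) / q := Int.ediv_le_ediv hq0 (by omega)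
      have a5 : 0 ≤ (m - m₀) / (q : ℤ) := Int.ediv_nonneg (by omega) hq0.le
      have a6 : ((y / q : ℕ) : ℤ) = (y : ℤ) / q := Int.natCast_div y q
      show ((m - m₀) / (q : ℤ)).toNat < y / q + 1
      omega
    · intro m hm m' hm' hh
      rw [mem_coe] at hm hm'
      have a3 : m₀ ≤ m := hmin m hm
      have a3' : m₀ ≤ m' := hmin m' hm'
      have hh' : ((m - m₀) / (q : ℤ)).toNat = ((m' - m₀) / (q : ℤ)).toNat := hh
      have a5 : 0 ≤ (m - m₀) / (q : ℤ) := Int.ediv_nonneg (by omega) hq0.le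
      have a5' : 0 ≤ (m' - m₀) / (q : ℤ) := Int.ediv_nonneg (by omega) hq0.le
      obtain ⟨k, hk⟩ := h m₀ hm₀ m hm
      obtain ⟨k', hk'⟩ := h m₀ hm₀ m' hm'
      rw [hk, hk', Int.mul_ediv_cancel_left _ hq0.ne', Int.mul_ediv_cancel_left _ hq0.ne'] at hh'
      rw [hk, Int.mul_ediv_cancel_left _ hq0.ne'] at a5
      rw [hk', Int.mul_ediv_cancel_left _ hq0.ne'] at a5'
      have : k = k' := by omega
      rw [this, ← hk'] at hk
      omega
  rwa [card_range] at h1

/-- the number of the arguments with `r ^ 2 ∣ f m` -/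
theorem sq_count {f : ℤ[X]} {D : ℤ} {u v : ℤ[X]} (h : u * f + v * derivative f = C D) {r : ℕ} (hr : 1 ≤ r)
    (hrD : ∀ p : ℕ, p.Prime → p ∣ r → ¬ (p : ℤ) ∣ D) (x : ℤ) (y : ℕ) :
    ((Finset.Ioc x (x + y)).filter fun m => (r : ℤ) ^ 2 ∣ f.eval m).card ≤
      (y / r ^ 2 + 1) * f.natDegree ^ r.primeFactors.card := by
  classical
  set T := (Finset.Ioc x (x + y)).filter fun m => (r : ℤ) ^ 2 ∣ f.eval m with hT
  have hTf : ∀ m ∈ T, (r : ℤ) ^ 2 ∣ f.eval m := fun m hm => (mem_filter.1 hm).2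
  refine (card_le_mul_card_image (f := fun m : ℤ => fun p : r.primeFactors => ((m : ℤ) : ZMod (p : ℕ))) T (y / r ^ 2 + 1) ?_).trans
    (Nat.mul_le_mul_left _ (classes_card h hrD T hTf))
  intro φ _
  apply fiber_card (r ^ 2) (Nat.one_le_pow _ _ (by omega)) x y
  · intro m hm
    exact (mem_filter.1 (mem_filter.1 hm).1).1
  · intro m hm m' hm'
    obtain ⟨h1, h2⟩ := mem_filter.1 hm
    obtain ⟨h3, h4⟩ := mem_filter.1 hm'
    push_cast
    apply congr_sq h (by omega) hrD (hTf m h1) (hTf m' h3)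
    intro p hp hpr
    have h5 := congrFun (h4.trans h2.symm) ⟨p, Nat.mem_primeFactors.2 ⟨hp, hpr, by omega⟩⟩
    have h6 : ((m' : ℤ) : ZMod p) = ((m : ℤ) : ZMod p) := h5
    rw [← ZMod.intCast_zmod_eq_zero_iff_dvd]
    push_cast
    rw [h6, sub_self]

end Pool.Agent.D0H92.OP
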