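import Pool.Agent.D0H92.OP.Crit
import Pool.Agent.D0H92.OP.Poly

set_option autoImplicit false

/-!
# Odd perfect values of polynomials in short intervals: conclusion
-/

namespace Pool.Agent.D0H92.OP

open Finset Filter Polynomial

lemma pow_omega (d : ℕ) : ∃ Cd : ℝ, 1 ≤ Cd ∧ ∀ r : ℕ, 1 ≤ r → (d : ℝ) ^ r.primeFactors.card ≤ Cd * (r : ℝ) ^ (1 / 2 : ℝ) := by
  refine ⟨((d : ℝ) + 1) ^ (d ^ 2 + 1), one_le_pow₀ (by have : (0 : ℝ) ≤ d := Nat.cast_nonneg d; linarith), ?_⟩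
  intro r hr
  have hd0 : (0 : ℝ) ≤ d := Nat.cast_nonneg d
  have h1 : (d : ℝ) ^ r.primeFactors.card ≤
      ∏ p ∈ r.primeFactors, ((if p ≤ d ^ 2 then (d : ℝ) + 1 else 1) * (p : ℝ) ^ (1 / 2 : ℝ)) := by
    rw [← prod_const]
    refine prod_le_prod (fun p _ => hd0) fun p hp => ?_
    have hp1 : (1 : ℝ) ≤ p := by exact_mod_cast (Nat.prime_of_mem_primeFactors hp).one_lt.le
    have hs : (1 : ℝ) ≤ (p : ℝ) ^ (1 / 2 : ℝ) := Real.one_le_rpow hp1 (by norm_num)
    split_ifs with h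
    · nlinarith
    · rw [one_mul]
      have h2 : ((d : ℝ)) ^ 2 ≤ p := by
        push Not at h
        exact_mod_cast h.le
      calc (d : ℝ) = ((d : ℝ) ^ 2) ^ (1 / 2 : ℝ) := by
            rw [← Real.sqrt_eq_rpow, Real.sqrt_sq hd0]
        _ ≤ (p : ℝ) ^ (1 / 2 : ℝ) := Real.rpow_le_rpow (by positivity) h2 (by norm_num)
  refine h1.trans ?_
  rw [prod_mul_distrib]
  apply mul_le_mul
  · rw [← prod_filter, prod_const]
    apply pow_le_pow_right₀ (by linarith)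
    have h2 : r.primeFactors.filter (fun p => p ≤ d ^ 2) ⊆ range (d ^ 2 + 1) := by
      intro p hp
      rw [mem_range]
      have := (mem_filter.1 hp).2
      omega
    have := card_le_card h2
    rwa [card_range] at this
  · rw [Real.finsetProd_rpow _ _ (fun p _ => Nat.cast_nonneg p)]
    apply Real.rpow_le_rpow (prod_nonneg fun p _ => Nat.cast_nonneg p) _ (by norm_num)
    have h2 := Nat.le_of_dvd (by omega) (Nat.prod_primeFactors_dvd r)
    have h3 : ((∏ p ∈ r.primeFactors, p : ℕ) : ℝ) ≤ r := by exact_mod_cast h2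
    rwa [Nat.cast_prod] at h3
  · exact prod_nonneg fun p _ => by positivity
  · positivity

lemma eval_bound (f : ℤ[X]) : ∃ H : ℝ, 1 ≤ H ∧ ∀ m : ℤ, ((f.eval m : ℤ) : ℝ) ≤ H * (|(m : ℝ)| + 1) ^ f.natDegree := by
  refine ⟨∑ i ∈ range (f.natDegree + 1), |((f.coeff i : ℤ) : ℝ)| + 1, ?_, ?_⟩
  · have : 0 ≤ ∑ i ∈ range (f.natDegree + 1), |((f.coeff i : ℤ) : ℝ)| := sum_nonneg fun _ _ => abs_nonneg _
    linarith
  intro m
  have hm : 1 ≤ |(m : ℝ)| + 1 := by have := abs_nonneg (m : ℝ); linarith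
  rw [eval_eq_sum_range]
  push_cast
  calc ∑ i ∈ range (f.natDegree + 1), ((f.coeff i : ℤ) : ℝ) * (m : ℝ) ^ i
      ≤ ∑ i ∈ range (f.natDegree + 1), |((f.coeff i : ℤ) : ℝ)| * (|(m : ℝ)| + 1) ^ f.natDegree := by
        refine sum_le_sum fun i hi => ?_
        calc ((f.coeff i : ℤ) : ℝ) * (m : ℝ) ^ i ≤ |((f.coeff i : ℤ) : ℝ) * (m : ℝ) ^ i| := le_abs_self _
          _ = |((f.coeff i : ℤ) : ℝ)| * |(m : ℝ)| ^ i := by rw [abs_mul, abs_pow]
          _ ≤ |((f.coeff i : ℤ) : ℝ)| * (|(m : ℝ)| + 1) ^ f.natDegree := by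
              apply mul_le_mul_of_nonneg_left _ (abs_nonneg _)
              calc |(m : ℝ)| ^ i ≤ (|(m : ℝ)| + 1) ^ i := pow_le_pow_left₀ (abs_nonneg _) (by linarith) _
                _ ≤ (|(m : ℝ)| + 1) ^ f.natDegree := pow_le_pow_right₀ hm (by have := mem_range.1 hi; omega)
    _ = (∑ i ∈ range (f.natDegree + 1), |((f.coeff i : ℤ) : ℝ)|) * (|(m : ℝ)| + 1) ^ f.natDegree := by rw [sum_mul]
    _ ≤ _ := by
        apply mul_le_mul_of_nonneg_right _ (by positivity)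
        linarith

lemma fiber_deg (f : ℤ[X]) (hd : 1 ≤ f.natDegree) (T : Finset ℤ) (n : ℤ) :
    (T.filter fun m => f.eval m = n).card ≤ f.natDegree := by
  have h0 : f - C n ≠ 0 := by
    intro h
    have h1 : f = C n := sub_eq_zero.1 h
    rw [h1, natDegree_C] at hd
    omega
  have h1 : (T.filter fun m => f.eval m = n) ⊆ (f - C n).roots.toFinset := by
    intro m hm
    rw [Multiset.mem_toFinset, mem_roots h0, IsRoot, eval_sub, eval_C, (mem_filter.1 hm).2, sub_self]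
  calc (T.filter fun m => f.eval m = n).card ≤ (f - C n).roots.toFinset.card := card_le_card h1
    _ ≤ (f - C n).natDegree := (Multiset.toFinset_card_le _).trans (card_roots' _)
    _ = f.natDegree := natDegree_sub_C

open Classical in
theorem poly_perfect (f : ℤ[X]) (hd : 1 ≤ f.natDegree) (hf : Squarefree (f.map (Int.castRingHom ℚ))) :
    ∃ κ : ℝ, 0 < κ ∧ κ < 1 ∧ ∃ y₀ : ℕ, ∀ (x : ℤ) (y : ℕ), y₀ ≤ y → |(x : ℝ)| + y ≤ Real.exp ((y : ℝ) ^ κ) →
      (((Finset.Ioc x (x + y)).filter fun m => OddPerfect (f.eval m)).card : ℝ) ≤ (y : ℝ) ^ (1 - κ) := by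
  obtain ⟨D, u, v, hD0, hrel⟩ := exists_rel f hf
  set P := D.natAbs.primeFactors with hP
  obtain ⟨d, hdd⟩ : ∃ d : ℕ, d = f.natDegree := ⟨_, rfl⟩
  rw [← hdd] at hd
  have hd1 : (1 : ℝ) ≤ d := by exact_mod_cast hd
  have hd0 : (0 : ℝ) < d := by linarith
  obtain ⟨κ', hκ'⟩ : ∃ κ' : ℝ, κ' = (1 / 2) * (1 / 2) / (8 * (4 ^ (P.card + 1) + 1)) := ⟨_, rfl⟩
  have hκ'0 : 0 < κ' := by rw [hκ']; positivity
  have hκ'1 : κ' < 1 := by
    rw [hκ', div_lt_one (by positivity)]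
    have h4 : (0 : ℝ) < 4 ^ (P.card + 1) := by positivity
    nlinarith
  obtain ⟨Cd, hCd1, hCd⟩ := pow_omega d
  obtain ⟨H, hH1, hH⟩ := eval_bound f
  rw [← hdd] at hH
  obtain ⟨M₀, hM₀⟩ := criterion P.card (1 / 2) (1 / 2) (2 * Cd * d) κ' (by norm_num) (by norm_num) (by norm_num) (by norm_num)
    (by positivity) hκ'
  have hlH : 0 ≤ Real.log H := Real.log_nonneg hH1
  have e1 : ∀ᶠ y : ℕ in atTop, (d : ℝ) ≤ (y : ℝ) ^ (κ' / 2) :=
    ((tendsto_rpow_atTop (show 0 < κ' / 2 by positivity)).comp tendsto_natCast_atTop_atTop).eventually_ge_atTop _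
  have e2 : ∀ᶠ y : ℕ in atTop, (Real.log H + 2 * d) * (d : ℝ) ^ κ' ≤ (y : ℝ) ^ (κ' / 2) :=
    ((tendsto_rpow_atTop (show 0 < κ' / 2 by positivity)).comp tendsto_natCast_atTop_atTop).eventually_ge_atTop _
  obtain ⟨y₀, hy₀⟩ := eventually_atTop.1 (e1.and (e2.and (eventually_ge_atTop (d * M₀ + 1))))
  refine ⟨κ' / 2, by positivity, by linarith, y₀, ?_⟩
  intro x y hy hxy
  obtain ⟨f1, f2, f3⟩ := hy₀ y hy
  have hy1 : (1 : ℝ) ≤ y := by exact_mod_cast (by omega : 1 ≤ y)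
  have hy0 : (0 : ℝ) < y := by linarith
  set J := Finset.Ioc x (x + y) with hJ
  have hJc : J.card = y := by rw [hJ, Int.card_Ioc]; omega
  set S := J.image fun m => f.eval m with hS
  have hSy : S.card ≤ y := by rw [← hJc]; exact card_image_le
  have hyS : y ≤ d * S.card := by
    have h3 := card_le_mul_card_image (f := fun m : ℤ => f.eval m) J d (fun n _ => by rw [hdd]; exact fiber_deg f (hdd ▸ hd) J n)
    rwa [hJc] at h3
  have hySr : (y : ℝ) ≤ d * S.card := by exact_mod_cast hyS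
  have hSyr : (S.card : ℝ) ≤ y := by exact_mod_cast hSy
  have hMS : M₀ ≤ S.card := by
    have h3 : d * M₀ < d * S.card := by omega
    exact (Nat.lt_of_mul_lt_mul_left h3).le
  have hS0 : (0 : ℝ) < S.card := by
    rcases (Nat.cast_nonneg (α := ℝ) S.card).eq_or_lt with h | h
    · rw [← h] at hySr; linarith
    · exact h
  -- size
  have hsize : ∀ n ∈ S, (n : ℝ) ≤ Real.exp ((S.card : ℝ) ^ κ') := by
    intro n hn
    obtain ⟨m, hm, rfl⟩ := mem_image.1 hn
    have hmJ := mem_Ioc.1 hm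
    have hmx : |(m : ℝ)| ≤ |(x : ℝ)| + y := by
      have a1 : (x : ℝ) < m := by exact_mod_cast hmJ.1
      have a2 : (m : ℝ) ≤ x + y := by exact_mod_cast hmJ.2
      rw [abs_le]
      have a3 := neg_abs_le (x : ℝ)
      have a4 := le_abs_self (x : ℝ)
      constructor <;> linarith
    set z : ℝ := (y : ℝ) ^ (κ' / 2) with hz
    have hz1 : 1 ≤ z := Real.one_le_rpow hy1 (by positivity)
    have h3 : |(m : ℝ)| + 1 ≤ Real.exp (1 + z) := by
      have a1 : (1 : ℝ) ≤ Real.exp z := Real.one_le_exp (by linarith)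
      have a2 := Real.add_one_le_exp (1 : ℝ)
      rw [Real.exp_add]
      nlinarith
    refine (hH m).trans ?_
    calc H * (|(m : ℝ)| + 1) ^ d ≤ Real.exp (Real.log H) * (Real.exp (1 + z)) ^ d := by
          rw [Real.exp_log (by linarith)]
          apply mul_le_mul_of_nonneg_left _ (by linarith)
          exact pow_le_pow_left₀ (by positivity) h3 _
      _ = Real.exp (Real.log H + d * (1 + z)) := by rw [← Real.exp_nat_mul, ← Real.exp_add]
      _ ≤ Real.exp ((S.card : ℝ) ^ κ') := by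
          apply Real.exp_le_exp.2
          have h5 : z * z ≤ (d : ℝ) ^ κ' * (S.card : ℝ) ^ κ' := by
            rw [← Real.mul_rpow hd0.le hS0.le, hz, ← Real.rpow_add hy0]
            calc (y : ℝ) ^ (κ' / 2 + κ' / 2) = (y : ℝ) ^ κ' := by congr 1; ring
              _ ≤ (d * (S.card : ℝ)) ^ κ' := Real.rpow_le_rpow hy0.le hySr hκ'0.le
          have hdκ : 0 < (d : ℝ) ^ κ' := by positivity
          have h6 : (Real.log H + 2 * d) * (d : ℝ) ^ κ' * z ≤ z * z := mul_le_mul_of_nonneg_right f2 (by linarith)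
          have h7 : (Real.log H + d * (1 + z)) * (d : ℝ) ^ κ' ≤ (Real.log H + 2 * d) * (d : ℝ) ^ κ' * z := by
            have h8 : Real.log H + d * (1 + z) ≤ (Real.log H + 2 * d) * z := by nlinarith
            nlinarith
          have h9 : (Real.log H + d * (1 + z)) * (d : ℝ) ^ κ' ≤ (S.card : ℝ) ^ κ' * (d : ℝ) ^ κ' := by linarith
          exact le_of_mul_le_mul_right h9 hdκ
  have hdiv : ∀ r : ℕ, 1 ≤ r → (r : ℝ) ≤ (S.card : ℝ) ^ (1 / 2 : ℝ) → (∀ p ∈ P, p.Prime → ¬ p ∣ r) →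
      ((S.filter fun n => (r : ℤ) ^ 2 ∣ n).card : ℝ) ≤ 2 * Cd * d * S.card * (r : ℝ) ^ (-(1 + 1 / 2) : ℝ) := by
    intro r hr hrM hrP
    have hr0 : (0 : ℝ) < r := by exact_mod_cast hr
    have h3 : (S.filter fun n => (r : ℤ) ^ 2 ∣ n).card ≤ (J.filter fun m => (r : ℤ) ^ 2 ∣ f.eval m).card := by
      rw [hS, filter_image]
      exact card_image_le
    have h4 := sq_count hrel hr (fun p hp hpr hpD => hrP p (by
      rw [hP, Nat.mem_primeFactors]
      exact ⟨hp, Int.natCast_dvd.1 hpD, Int.natAbs_ne_zero.2 hD0⟩) hp hpr) x y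
    rw [← hdd] at h4
    have h5 : ((S.filter fun n => (r : ℤ) ^ 2 ∣ n).card : ℝ) ≤ (((y / r ^ 2 + 1) * d ^ r.primeFactors.card : ℕ) : ℝ) := by
      exact_mod_cast h3.trans h4
    have hr2 : (r : ℝ) ^ 2 ≤ y := by
      calc (r : ℝ) ^ 2 ≤ ((y : ℝ) ^ (1 / 2 : ℝ)) ^ 2 :=
            pow_le_pow_left₀ hr0.le (hrM.trans (Real.rpow_le_rpow hS0.le hSyr (by norm_num))) 2
        _ = y := by
            rw [← Real.rpow_natCast, ← Real.rpow_mul hy0.le]
            norm_num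
    have h6 : ((y / r ^ 2 : ℕ) : ℝ) ≤ (y : ℝ) / r ^ 2 := by
      have := Nat.cast_div_le (α := ℝ) (m := y) (n := r ^ 2)
      push_cast at this
      exact this
    have h7 : (1 : ℝ) ≤ (y : ℝ) / r ^ 2 := by rw [one_le_div (by positivity)]; exact hr2
    have e2 : (r : ℝ) ^ (-(1 + 1 / 2) : ℝ) = (r : ℝ) ^ (1 / 2 : ℝ) / (r : ℝ) ^ 2 := by
      rw [eq_div_iff (by positivity), ← Real.rpow_natCast (r : ℝ) 2, ← Real.rpow_add hr0]
      norm_num
    push_cast at h5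
    calc ((S.filter fun n => (r : ℤ) ^ 2 ∣ n).card : ℝ)
        ≤ (((y / r ^ 2 : ℕ) : ℝ) + 1) * (d : ℝ) ^ r.primeFactors.card := h5
      _ ≤ (2 * ((y : ℝ) / r ^ 2)) * (Cd * (r : ℝ) ^ (1 / 2 : ℝ)) :=
          mul_le_mul (by linarith) (hCd r hr) (by positivity) (by positivity)
      _ = 2 * Cd * y * ((r : ℝ) ^ (1 / 2 : ℝ) / (r : ℝ) ^ 2) := by ring
      _ ≤ 2 * Cd * (d * S.card) * ((r : ℝ) ^ (1 / 2 : ℝ) / (r : ℝ) ^ 2) := by
          apply mul_le_mul_of_nonneg_right _ (by positivity)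
          apply mul_le_mul_of_nonneg_left hySr (by positivity)
      _ = _ := by rw [e2]; ring
  have hmain := hM₀ S P hMS le_rfl hsize hdiv
  set T := J.filter fun m => OddPerfect (f.eval m) with hT
  have h3 : T.card ≤ d * (T.image fun m => f.eval m).card :=
    card_le_mul_card_image (f := fun m : ℤ => f.eval m) T d (fun n _ => by rw [hdd]; exact fiber_deg f (hdd ▸ hd) T n)
  have h4 : (T.image fun m => f.eval m) ⊆ S.filter fun n => OddPerfect n := by
    intro n hn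
    obtain ⟨m, hm, rfl⟩ := mem_image.1 hn
    obtain ⟨hmJ, hmp⟩ := mem_filter.1 hm
    exact mem_filter.2 ⟨mem_image_of_mem _ hmJ, hmp⟩
  have h5 : T.card ≤ d * (S.filter fun n => OddPerfect n).card := h3.trans (Nat.mul_le_mul_left _ (card_le_card h4))
  have h6 : (T.card : ℝ) ≤ d * ((S.filter fun n => OddPerfect n).card : ℝ) := by exact_mod_cast h5
  calc (T.card : ℝ) ≤ d * ((S.filter fun n => OddPerfect n).card : ℝ) := h6
    _ ≤ (y : ℝ) ^ (κ' / 2) * (y : ℝ) ^ (1 - κ') := by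
        apply mul_le_mul f1 _ (Nat.cast_nonneg _) (by positivity)
        exact hmain.trans (Real.rpow_le_rpow hS0.le hSyr (by linarith))
    _ = (y : ℝ) ^ (1 - κ' / 2) := by rw [← Real.rpow_add hy0]; congr 1; ring

end Pool.Agent.D0H92.OP
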